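import Pool.Agent.W740.TU.Sym

set_option autoImplicit false

open scoped Manifold ContDiff Topology
open Set Filter

namespace Pool.Agent.Results.MP_0a0487_an.TransverseTorusMapCovered

open Pool.Agent.H721R2 Pool.Agent.H789R2.AN Pool.Agent.W740.TU

/-- **Anosov diffeomorphisms with a torus map that is transverse to one of the foliations live on
manifolds covered by Euclidean space.**
Let `f` be a `C¹` Anosov diffeomorphism of a closed connected smooth manifold `M` modelled on the
finite-dimensional space `E`, with stable and unstable bundles of ranks `s` and `u`.  Suppose that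
there is
* a continuous map `p : M → (ℝ/ℤ)ᵘ` that is injective on the local unstable sets of some size
  (`UnstInj f.symm p`), i.e. for some neighbourhood `𝒰` of the diagonal one has `p x ≠ p y` if
  `x ≠ y` and `f⁻ⁿ x`, `f⁻ⁿ y` are `𝒰`-close for all `n ≥ 0`, or
* a continuous map `p : M → (ℝ/ℤ)ˢ` that is injective on the local stable sets of some size.
(No relation between `p` and `f` is assumed otherwise, and nothing is assumed on the other
foliation, on the dimensions, or on the fundamental group of `M`.)
Then there is a surjective covering map `E → M`, where `E ≅ ℝⁿ`, `n = dim M`, and `M` is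
homeomorphic to a torus `(ℝ/ℤ)^m`. -/
theorem result (E : Type*) [NormedAddCommGroup E] [NormedSpace ℝ E] [FiniteDimensional ℝ E]
    (M : Type*) [TopologicalSpace M] [T2Space M] [CompactSpace M] [ConnectedSpace M]
    [ChartedSpace E M] [IsManifold 𝓘(ℝ, E) ∞ M] (f : Diffeomorph 𝓘(ℝ, E) 𝓘(ℝ, E) M M 1)
    (Es Eu : ∀ x : M, Submodule ℝ (TangentSpace 𝓘(ℝ, E) x)) (hA : IsAnosov f Es Eu)
    (s u : ℕ) (hs : ∀ x, Module.finrank ℝ (Es x) = s) (hu : ∀ x, Module.finrank ℝ (Eu x) = u)
    (h : (∃ p : C(M, Fin u → AddCircle (1 : ℝ)), UnstInj f.symm p) ∨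
      ∃ p : C(M, Fin s → AddCircle (1 : ℝ)), UnstInj f p) :
    (∃ q : E → M, IsCoveringMap q ∧ Function.Surjective q) ∧
      ∃ m : ℕ, Nonempty (M ≃ₜ (Fin m → AddCircle (1 : ℝ))) := by
  obtain ⟨-, ⟨m, B, h, -⟩, hq, -⟩ := man_either f Es Eu hA hs hu h
  exact ⟨hq, m, ⟨h⟩⟩

end Pool.Agent.Results.MP_0a0487_an.TransverseTorusMapCovered
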